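import Pool.Agent.H428Z.CB.Prob

set_option autoImplicit false
open Finset

namespace Pool.Agent.H428Z.CB

/-- Cliques of the visiting relation with a Schreier-type size condition. -/
def Good (F : Finset Node) : Prop :=
  (∀ u ∈ F, ∀ v ∈ F, u ≠ v → u.1 ∈ v.2 ∨ v.1 ∈ u.2) ∧ ∀ u ∈ F, F.card ≤ 4 ^ u.1.1

lemma Good.mono {F G : Finset Node} (h : Good F) (hG : G ⊆ F) : Good G :=
  ⟨fun u hu v hv => h.1 u (hG hu) v (hG hv), fun u hu => (card_le_card hG).trans (h.2 u (hG hu))⟩

lemma good_singleton (u : Node) : Good {u} := by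
  refine ⟨fun a ha b hb hab => ?_, fun a _ => ?_⟩
  · rw [mem_singleton] at ha hb; exact absurd (ha.trans hb.symm) hab
  · rw [card_singleton]; exact Nat.one_le_pow _ _ (by norm_num)

lemma cover (X : Node → ℝ) (hX : ∀ F, Good F → ∑ u ∈ F, X u ≤ 1) (m : ℕ) :
    ∀ (c : ℕ) (V : Finset Node), V.card = c →
      (∀ u ∈ V, ∀ v ∈ V, u ≠ v → u.1 ∈ v.2 ∨ v.1 ∈ u.2) → (∀ u ∈ V, m ≤ u.1.1) →
      ∑ u ∈ V, X u ≤ 1 + (1 / 4 ^ m) * (V.card : ℝ) := by
  intro c
  induction c using Nat.strong_induction_on with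
  | _ c ih =>
    intro V hc hcl hm
    by_cases hle : V.card ≤ 4 ^ m
    · have : Good V := ⟨hcl, fun u hu => hle.trans (Nat.pow_le_pow_right (by norm_num) (hm u hu))⟩
      have h1 := hX V this
      have h2 : (0 : ℝ) ≤ (1 / 4 ^ m) * (V.card : ℝ) := by positivity
      linarith
    · obtain ⟨W, hWV, hW⟩ := exists_subset_card_eq (s := V) (n := 4 ^ m) (by omega)
      have hg : Good W := ⟨fun u hu v hv => hcl u (hWV hu) v (hWV hv),
        fun u hu => hW.le.trans (Nat.pow_le_pow_right (by norm_num) (hm u (hWV hu)))⟩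
      have hpos : 0 < 4 ^ m := by positivity
      have hcard : (V \ W).card + 4 ^ m = V.card := by rw [← hW]; exact card_sdiff_add_card_eq_card hWV
      have h1 := ih (V \ W).card (by omega) (V \ W) rfl
        (fun u hu v hv => hcl u (sdiff_subset hu) v (sdiff_subset hv))
        (fun u hu => hm u (sdiff_subset hu))
      have h2 := hX W hg
      rw [← sum_sdiff hWV]
      have h3 : (V.card : ℝ) = ((V \ W).card : ℝ) + 4 ^ m := by rw [← hcard]; push_cast; ring
      rw [h3, mul_add]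
      have h4 : (1 / 4 ^ m : ℝ) * 4 ^ m = 1 := by field_simp
      linarith

lemma count_le (A : Col → Prop) [DecidablePred A] (t : ℕ → ℝ) (ht : ∀ n, 0 ≤ t n)
    (hA : ∀ n k, A (n, k) → k ≤ n ∧ r k ≤ t n) (N : ℕ) :
    Ex N (S fun u => if A u.1 then 1 else 0) ≤ ∑ n ∈ range N, 2 * t n ^ 2 := by
  rw [Ex_S]
  refine sum_le_sum fun n _ => ?_
  refine le_trans (sum_le_sum fun k _ => ?_) (sum_r_sq_le' (n + 2) (t n) (ht n))
  rw [Ex_const n (if A (n, k) then 1 else 0)]
  by_cases h : A (n, k)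
  · have := hA n k h
    rw [if_pos h, if_pos this.2, p, if_pos this.1, mul_one]
  · rw [if_neg h, mul_zero]
    split_ifs
    · positivity
    · exact le_rfl

lemma dyadic (β ρ : ℝ) (hρ : 0 < ρ) (h : β ≤ ρ) (n : ℕ) :
    β ≤ ρ * (1 / 2) ^ n + ∑ j ∈ range n, (1 / 2) ^ j * (if ρ ≤ 2 ^ (j + 1) * β then ρ else 0) := by
  induction n with
  | zero => simpa using h
  | succ n ih =>
    by_cases h1 : ρ ≤ 2 ^ (n + 1) * β
    · rw [sum_range_succ, if_pos h1, pow_succ]
      have : 0 ≤ ρ * (1 / 2) ^ n := by positivity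
      nlinarith
    · have h2 : 0 ≤ ∑ j ∈ range (n + 1),
          (1 / 2 : ℝ) ^ j * (if ρ ≤ 2 ^ (j + 1) * β then ρ else 0) :=
        sum_nonneg fun j _ => by split_ifs <;> positivity
      have h3 : β ≤ ρ * (1 / 2) ^ (n + 1) := by
        rw [one_div, inv_pow, ← div_eq_mul_inv, le_div_iff₀ (by positivity)]
        linarith
      linarith

lemma geom_le (N : ℕ) : ∑ j ∈ range N, (1 / 2 : ℝ) ^ j ≤ 2 := by
  have : ∀ N : ℕ, ∑ j ∈ range N, (1 / 2 : ℝ) ^ j = 2 - 2 * (1 / 2) ^ N := by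
    intro N
    induction N with
    | zero => simp
    | succ N ih => rw [sum_range_succ, ih]; ring
  rw [this]
  have : (0 : ℝ) ≤ (1 / 2) ^ N := by positivity
  linarith

lemma level (X : Node → ℝ) (hX : ∀ F, Good F → ∑ u ∈ F, X u ≤ 1)
    (N : ℕ) (b : ℕ → ℝ) (hb0 : ∀ n, 0 ≤ b n) (hb : ∑ n ∈ range N, b n ^ 2 ≤ 1) (j : ℕ) :
    ∑ n ∈ range N, ∑ k ∈ range (n + 1), (if j < n ∧ r k ≤ 2 ^ (j + 1) * b n then
      r k ^ 2 * Ex n (fun h => X ((n, k), h)) else 0) ≤ 3 := by
  classical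
  let A : Col → Prop := fun c => c.2 ≤ c.1 ∧ (j < c.1 ∧ r c.2 ≤ 2 ^ (j + 1) * b c.1)
  have hpt : ∀ h : List Col, S (fun u => if A u.1 then X u else 0) h ≤
      1 + (1 / 4 ^ (j + 1)) * S (fun u => if A u.1 then 1 else 0) h := by
    intro h
    rw [S_eq, S_eq, ← sum_filter, ← sum_filter, sum_const, nsmul_eq_mul, mul_one]
    refine cover X hX (j + 1) _ _ rfl (fun u hu v hv huv => ?_) (fun u hu => ?_)
    · exact vis_clique h u v (mem_filter.1 hu).1 (mem_filter.1 hv).1 huv
    · exact (mem_filter.1 hu).2.2.1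
  have h1 := Ex_mono N hpt
  rw [Ex_add, Ex_const, Ex_mul, Ex_S] at h1
  have h2 := count_le A (fun n => 2 ^ (j + 1) * b n)
    (fun n => mul_nonneg (by positivity) (hb0 n)) (fun n k h => ⟨h.1, h.2.2⟩) N
  have h3 : ∑ n ∈ range N, 2 * (2 ^ (j + 1) * b n) ^ 2 ≤ 2 * 4 ^ (j + 1) := by
    have : ∀ n, 2 * (2 ^ (j + 1) * b n) ^ 2 = (2 * 4 ^ (j + 1)) * b n ^ 2 := by
      intro n
      rw [mul_pow, ← pow_mul, mul_comm (j + 1) 2, pow_mul]; norm_num; ring
    simp only [this, ← mul_sum]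
    have h4 : (0 : ℝ) ≤ 2 * 4 ^ (j + 1) := by positivity
    nlinarith
  have h5 : (1 / 4 ^ (j + 1) : ℝ) * Ex N (S fun u => if A u.1 then 1 else 0) ≤ 2 := by
    calc (1 / 4 ^ (j + 1) : ℝ) * Ex N (S fun u => if A u.1 then 1 else 0)
        ≤ (1 / 4 ^ (j + 1) : ℝ) * (2 * 4 ^ (j + 1)) :=
          mul_le_mul_of_nonneg_left (h2.trans h3) (by positivity)
      _ = 2 := by field_simp
  refine le_trans (le_of_eq ?_) (h1.trans (by linarith))
  refine sum_congr rfl fun n _ => ?_
  rw [sum_range_succ _ (n + 1)]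
  have h6 : ¬ A (n, n + 1) := fun h => by have := h.1; simp at this
  simp only [if_neg h6, Ex_const, mul_zero, add_zero]
  refine sum_congr rfl fun k hk => ?_
  have hk' : k ≤ n := by simpa [Nat.lt_succ_iff] using hk
  by_cases h : j < n ∧ r k ≤ 2 ^ (j + 1) * b n
  · have hA : A (n, k) := ⟨hk', h⟩
    simp only [if_pos h, if_pos hA, p, if_pos hk']
  · have hA : ¬ A (n, k) := fun hh => h hh.2
    simp only [if_neg h, if_neg hA, Ex_const, mul_zero]

theorem upper (X : Node → ℝ) (hX0 : ∀ u, 0 ≤ X u) (hX : ∀ F, Good F → ∑ u ∈ F, X u ≤ 1)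
    (N : ℕ) (b : ℕ → ℝ) (hb0 : ∀ n, 0 ≤ b n) (hb : ∑ n ∈ range N, b n ^ 2 ≤ 1) :
    ∑ n ∈ range N, b n * ∑ k ∈ range (n + 1), r k * Ex n (fun h => X ((n, k), h)) ≤ 10 := by
  set m : ℕ → ℕ → ℝ := fun n k => Ex n (fun h => X ((n, k), h)) with hm
  have hm0 : ∀ n k, 0 ≤ m n k := fun n k => by
    have := Ex_mono n (f := fun _ => 0) (g := fun h => X ((n, k), h)) fun h => hX0 _
    rwa [Ex_const] at this
  have hm1 : ∀ n k, m n k ≤ 1 := fun n k => by
    have := Ex_mono n (g := fun _ => 1) (f := fun h => X ((n, k), h)) fun h => by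
      simpa using hX _ (good_singleton ((n, k), h))
    rwa [Ex_const] at this
  have hterm : ∀ n ∈ range N, ∀ k, b n * (r k * m n k) ≤
      b n * (if r k ≤ b n then r k else 0) + (1 / 2) ^ n * r k ^ 2 +
      ∑ j ∈ range N, (1 / 2) ^ j *
        (if j < n ∧ r k ≤ 2 ^ (j + 1) * b n then r k ^ 2 * m n k else 0) := by
    intro n hn k
    have hr := r_pos k
    have hmm := hm0 n k
    have hm1' := hm1 n k
    have hbb := hb0 n
    have hnn : ∀ j, 0 ≤ (1 / 2 : ℝ) ^ j *
        (if j < n ∧ r k ≤ 2 ^ (j + 1) * b n then r k ^ 2 * m n k else 0) := fun j => by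
      split_ifs <;> positivity
    by_cases h : r k ≤ b n
    · rw [if_pos h]
      have h1 : 0 ≤ (1 / 2 : ℝ) ^ n * r k ^ 2 := by positivity
      have h2 := sum_nonneg (s := range N) fun j _ => hnn j
      have h3 : b n * (r k * m n k) ≤ b n * r k :=
        mul_le_mul_of_nonneg_left (by nlinarith) hbb
      linarith
    · rw [if_neg h, mul_zero, zero_add]
      have h1 := mul_le_mul_of_nonneg_right (dyadic (b n) (r k) hr (by linarith) n)
        (mul_nonneg hr.le hmm)
      refine h1.trans ?_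
      rw [add_mul, sum_mul]
      refine add_le_add ?_ ?_
      · have : (0 : ℝ) ≤ (1 / 2) ^ n * r k ^ 2 := by positivity
        nlinarith
      · refine le_trans (le_of_eq ?_) (sum_le_sum_of_subset_of_nonneg
          (range_subset_range.2 (mem_range.1 hn).le) fun j _ _ => hnn j)
        refine sum_congr rfl fun j hj => ?_
        have hj' := mem_range.1 hj
        by_cases h2 : r k ≤ 2 ^ (j + 1) * b n
        · rw [if_pos h2, if_pos ⟨hj', h2⟩]; ring
        · rw [if_neg h2, if_neg fun hh => h2 hh.2]; ring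
  have h1 : ∑ n ∈ range N, ∑ k ∈ range (n + 1), b n * (if r k ≤ b n then r k else 0) ≤ 2 := by
    calc _ ≤ ∑ n ∈ range N, 2 * b n ^ 2 := by
          refine sum_le_sum fun n _ => ?_
          rw [← mul_sum]
          have := mul_le_mul_of_nonneg_left (sum_r_le (n + 1) (b n) (hb0 n)) (hb0 n)
          linarith
      _ ≤ 2 := by rw [← mul_sum]; linarith
  have h2 : ∑ n ∈ range N, ∑ k ∈ range (n + 1), (1 / 2 : ℝ) ^ n * r k ^ 2 ≤ 2 := by
    refine le_trans (sum_le_sum fun n _ => ?_) (geom_le N)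
    rw [← mul_sum]
    have h3 := sum_r_sq_le (n + 1)
    have h4 : (0 : ℝ) ≤ (1 / 2) ^ n := by positivity
    nlinarith
  have h3 : ∑ n ∈ range N, ∑ k ∈ range (n + 1), ∑ j ∈ range N, (1 / 2 : ℝ) ^ j *
        (if j < n ∧ r k ≤ 2 ^ (j + 1) * b n then r k ^ 2 * m n k else 0) ≤ 6 := by
    calc _ = ∑ j ∈ range N, (1 / 2 : ℝ) ^ j * ∑ n ∈ range N, ∑ k ∈ range (n + 1),
          (if j < n ∧ r k ≤ 2 ^ (j + 1) * b n then r k ^ 2 * m n k else 0) := by
          simp only [mul_sum]
          rw [sum_comm]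
          refine sum_congr rfl fun n _ => ?_
          rw [sum_comm]
      _ ≤ ∑ j ∈ range N, (1 / 2 : ℝ) ^ j * 3 := sum_le_sum fun j _ =>
          mul_le_mul_of_nonneg_left (level X hX N b hb0 hb j) (by positivity)
      _ ≤ 6 := by rw [← sum_mul]; have := geom_le N; linarith
  calc _ = ∑ n ∈ range N, ∑ k ∈ range (n + 1), b n * (r k * m n k) := by simp only [mul_sum, hm]
    _ ≤ _ := sum_le_sum fun n hn => sum_le_sum fun k _ => hterm n hn k
    _ ≤ 10 := by simp only [sum_add_distrib]; linarith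

lemma low_sum (t : ℝ) (ht : t ≤ 1) (n : ℕ) :
    t - r n ≤ ∑ k ∈ range (n + 1), (if r k ≤ t then r k else 0) := by
  induction n with
  | zero =>
    simp only [zero_add, range_one, sum_singleton, r_zero]
    split_ifs <;> linarith
  | succ n ih =>
    have h0 : 0 ≤ ∑ k ∈ range (n + 1), (if r k ≤ t then r k else 0) :=
      sum_nonneg fun k _ => by split_ifs; exacts [(r_pos k).le, le_rfl]
    rw [sum_range_succ]
    have := r_succ n
    split_ifs <;> linarith

theorem lower (N : ℕ) (b : ℕ → ℝ) (hb : ∑ n ∈ range N, b n ^ 2 = 2 / 5) :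
    ∃ a : Node → ℝ, (∀ F, Good F → ∑ u ∈ F, |a u| ≤ 1) ∧
      1 / 150 ≤ ∑ n ∈ range N, b n * ∑ k ∈ range (n + 1), r k * Ex n (fun h => a ((n, k), h)) := by
  classical
  let A : Col → Prop := fun c => c.2 ≤ c.1 ∧ r c.2 ≤ |b c.1|
  let Z : List Col → ℝ := fun h => if ∀ c ∈ h, ¬ A c then 1 else 0
  let sg : ℕ → ℝ := fun n => if 0 ≤ b n then 1 else -1
  have hsg : ∀ n, b n * sg n = |b n| := fun n => by
    simp only [sg]
    split_ifs with h
    · rw [abs_of_nonneg h, mul_one]
    · rw [abs_of_neg (by linarith)]; ring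
  have hsg1 : ∀ n, |sg n| = 1 := fun n => by simp only [sg]; split_ifs <;> simp
  have hS0 : ∀ h, 0 ≤ S (fun u => if A u.1 then (1 : ℝ) else 0) h := fun h => by
    rw [S_eq]; exact sum_nonneg fun u _ => by split_ifs <;> norm_num
  have hZ : ∀ h, 1 + (-1) * S (fun u => if A u.1 then (1 : ℝ) else 0) h ≤ Z h := by
    intro h
    induction h with
    | nil => simp [Z, S]
    | cons c h ih =>
      have h0 := hS0 h
      by_cases hc : A c
      · have : Z (c :: h) = 0 := if_neg fun hh => hh c (by simp) hc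
        rw [this, S, if_pos hc]; linarith
      · have : Z (c :: h) = Z h := by simp only [Z, List.forall_mem_cons, hc]; simp
        rw [this, S, if_neg hc]; linarith
  have hEZ : ∀ n ∈ range N, 1 / 5 ≤ Ex n Z := by
    intro n hn
    have h1 := Ex_mono n hZ
    rw [Ex_add, Ex_const, Ex_mul] at h1
    have h2 := count_le A (fun n => |b n|) (fun n => abs_nonneg _) (fun n k h => h) n
    have h3 : ∑ m ∈ range n, 2 * |b m| ^ 2 ≤ ∑ m ∈ range N, 2 * |b m| ^ 2 :=
      sum_le_sum_of_subset_of_nonneg (range_subset_range.2 (mem_range.1 hn).le)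
        fun j _ _ => by positivity
    simp only [sq_abs, ← mul_sum, hb] at h3 h2
    have h4 : Ex n (S fun u => if A u.1 then (1 : ℝ) else 0) ≤ 2 * (2 / 5) :=
      h2.trans h3
    linarith
  refine ⟨fun u => (if A u.1 then sg u.1.1 else 0) * Z u.2, fun F hF => ?_, ?_⟩
  · calc ∑ u ∈ F, |(if A u.1 then sg u.1.1 else 0) * Z u.2|
        = ∑ u ∈ F, if A u.1 ∧ ∀ c ∈ u.2, ¬ A c then (1 : ℝ) else 0 := by
          refine sum_congr rfl fun u _ => ?_
          by_cases h1 : A u.1 <;> by_cases h2 : ∀ c ∈ u.2, ¬ A c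
          · rw [if_pos h1, if_pos ⟨h1, h2⟩]; simp only [Z, if_pos h2, mul_one, hsg1]
          · rw [if_pos h1, if_neg (fun hh => h2 hh.2)]
            simp only [Z, if_neg h2, mul_zero, abs_zero]
          · rw [if_neg h1, if_neg (fun hh => h1 hh.1)]; simp
          · rw [if_neg h1, if_neg (fun hh => h1 hh.1)]; simp
      _ = ((F.filter fun u => A u.1 ∧ ∀ c ∈ u.2, ¬ A c).card : ℝ) := by
          rw [← sum_filter, sum_const, nsmul_eq_mul, mul_one]
      _ ≤ 1 := by
          have : (F.filter fun u => A u.1 ∧ ∀ c ∈ u.2, ¬ A c).card ≤ 1 := by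
            rw [card_le_one]
            intro u hu v hv
            by_contra huv
            obtain ⟨hu1, hu2, hu3⟩ := mem_filter.1 hu
            obtain ⟨hv1, hv2, hv3⟩ := mem_filter.1 hv
            rcases hF.1 u hu1 v hv1 huv with h | h
            · exact hv3 _ h hu2
            · exact hu3 _ h hv2
          exact_mod_cast this
  · have h1 : ∀ n ∈ range N, (1 / 10) * (b n ^ 2 - r n ^ 2) ≤ b n * ∑ k ∈ range (n + 1),
        r k * Ex n (fun h => (if A (n, k) then sg n else 0) * Z h) := by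
      intro n hn
      have hb1 : |b n| ≤ 1 := by
        have : b n ^ 2 ≤ ∑ n ∈ range N, b n ^ 2 :=
          single_le_sum (f := fun n => b n ^ 2) (fun i _ => sq_nonneg _) hn
        rw [← sq_le_one_iff_abs_le_one]; linarith
      have h2 : ∑ k ∈ range (n + 1), r k * Ex n (fun h => (if A (n, k) then sg n else 0) * Z h)
          = sg n * (Ex n Z * ∑ k ∈ range (n + 1), (if r k ≤ |b n| then r k else 0)) := by
        rw [mul_sum, mul_sum]
        refine sum_congr rfl fun k hk => ?_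
        have hk' : k ≤ n := by simpa [Nat.lt_succ_iff] using hk
        rw [Ex_mul]
        by_cases h : r k ≤ |b n|
        · have hA : A (n, k) := ⟨hk', h⟩
          rw [if_pos hA, if_pos h]; ring
        · have hA : ¬ A (n, k) := fun hh => h hh.2
          rw [if_neg hA, if_neg h]; ring
      rw [h2, ← mul_assoc, hsg]
      have h3 := low_sum (|b n|) hb1 n
      have h0 : 0 ≤ ∑ k ∈ range (n + 1), (if r k ≤ |b n| then r k else 0) :=
        sum_nonneg fun k _ => by split_ifs; exacts [(r_pos k).le, le_rfl]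
      have h4 := hEZ n hn
      have h5 := abs_nonneg (b n)
      set L := ∑ k ∈ range (n + 1), (if r k ≤ |b n| then r k else 0)
      have h6 : (1 / 5) * L ≤ Ex n Z * L := mul_le_mul_of_nonneg_right h4 h0
      have h7 : |b n| * ((1 / 5) * (|b n| - r n)) ≤ |b n| * (Ex n Z * L) :=
        mul_le_mul_of_nonneg_left (by linarith) h5
      rw [← sq_abs (b n)]
      nlinarith [sq_nonneg (|b n| - r n)]
    refine le_trans ?_ (sum_le_sum h1)
    rw [← mul_sum, sum_sub_distrib, hb]
    have := sum_r_sq_le N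
    linarith

end Pool.Agent.H428Z.CB
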