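import Pool.Agent.H428Z.CB.Space

set_option autoImplicit false
open Finset

namespace Pool.Agent.H428Z.CB

noncomputable def enc : Node ≃ ℕ := Denumerable.eqv Node

/-- The family on the naturals. -/
def Fam : Set (Finset ℕ) := {F | Good (F.map enc.symm.toEmbedding)}

lemma fam_hered : ∀ A ∈ Fam, ∀ B : Finset ℕ, B ⊆ A → B ∈ Fam :=
  fun _ hA _ hB => Good.mono hA (map_subset_map.2 hB)

lemma fam_single (i : ℕ) : ({i} : Finset ℕ) ∈ Fam := by
  show Good _
  rw [map_singleton]; exact good_singleton _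

lemma fam_compact (M : Set ℕ) (hM : M.Infinite) : ∃ A : Finset ℕ, (↑A : Set ℕ) ⊆ M ∧ A ∉ Fam := by
  obtain ⟨i, hi⟩ := hM.nonempty
  obtain ⟨T, hT, hc⟩ := hM.exists_subset_card_eq (4 ^ (enc.symm i).1.1 + 1)
  refine ⟨insert i T, ?_, fun h => ?_⟩
  · rw [coe_insert]; exact Set.insert_subset hi hT
  · have h1 := h.2 (enc.symm i) (mem_map.2 ⟨i, mem_insert_self _ _, rfl⟩)
    rw [card_map] at h1
    have h2 := card_le_card (subset_insert i T)
    omega

lemma map_mem_fam {F : Finset Node} (h : Good F) : F.map enc.toEmbedding ∈ Fam := by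
  show Good _
  rw [map_map]
  convert h
  ext u; simp

theorem main (E : Type) [NormedAddCommGroup E] [NormedSpace ℝ E]
    (e : ℕ → E) (es : ℕ → E →L[ℝ] ℝ)
    (hn : ∀ (n : ℕ) (a : ℕ → ℝ), ‖∑ i ∈ range n, a i • e i‖ =
          sSup ((fun F : Finset ℕ => ∑ i ∈ F ∩ range n, |a i|) '' Fam))
    (hes : ∀ i j, es i (e j) = if j = i then 1 else 0)
    (hF : ∀ x : E, ∀ F ∈ Fam, ∑ i ∈ F, |es i x| ≤ ‖x‖) :
    ∃ y : ℕ → (E →L[ℝ] ℝ),
      (∀ (N : ℕ) (b : ℕ → ℝ), ∑ n ∈ range N, b n ^ 2 ≤ 1 → ‖∑ n ∈ range N, b n • y n‖ ≤ 10) ∧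
      (∀ (N : ℕ) (b : ℕ → ℝ), ∑ n ∈ range N, b n ^ 2 = 2 / 5 →
        1 / 150 ≤ ‖∑ n ∈ range N, b n • y n‖) := by
  classical
  let y : ℕ → (E →L[ℝ] ℝ) := fun n =>
    ∑ k ∈ range (n + 1), r k • Ex n (fun h => es (enc ((n, k), h)))
  have hy : ∀ (N : ℕ) (b : ℕ → ℝ) (x : E), (∑ n ∈ range N, b n • y n) x =
      ∑ n ∈ range N, b n * ∑ k ∈ range (n + 1), r k * Ex n (fun h => es (enc ((n, k), h)) x) := by
    intro N b x
    simp only [y, _root_.sum_apply, _root_.smul_apply, smul_eq_mul, Ex_apply]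
  refine ⟨y, fun N b hb => ?_, fun N b hb => ?_⟩
  · refine ContinuousLinearMap.opNorm_le_of_unit_norm (by norm_num) fun x hx => ?_
    have h1 := upper (fun u => |es (enc u) x|) (fun u => abs_nonneg _) (fun F hG => by
      have := hF x _ (map_mem_fam hG)
      rw [sum_map, hx] at this
      exact this) N (fun n => |b n|) (fun n => abs_nonneg _) (by simpa only [sq_abs] using hb)
    refine le_trans ?_ h1
    rw [hy, Real.norm_eq_abs]
    refine (abs_sum_le_sum_abs _ _).trans (sum_le_sum fun n _ => ?_)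
    rw [abs_mul]
    refine mul_le_mul_of_nonneg_left ?_ (abs_nonneg _)
    refine (abs_sum_le_sum_abs _ _).trans (sum_le_sum fun k _ => ?_)
    rw [abs_mul, abs_of_pos (r_pos k)]
    exact mul_le_mul_of_nonneg_left (Ex_abs _ _) (r_pos k).le
  · obtain ⟨a, ha, hl⟩ := lower N b hb
    choose T hT using Ex_fin
    let U : Finset ℕ := (range N).biUnion fun n =>
      (range (n + 1) ×ˢ T n).image fun z => enc ((n, z.1), z.2)
    let M := U.sup id + 1
    let x : E := ∑ i ∈ range M, a (enc.symm i) • e i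
    have hx : ‖x‖ ≤ 1 := by
      rw [hn]
      refine csSup_le ⟨_, ⟨_, fam_single 0, rfl⟩⟩ ?_
      rintro _ ⟨F, hFF, rfl⟩
      have h1 := ha _ hFF
      rw [sum_map] at h1
      exact (sum_le_sum_of_subset_of_nonneg inter_subset_left fun i _ _ => abs_nonneg _).trans h1
    have hcoef : ∀ i ∈ U, es i x = a (enc.symm i) := by
      intro i hi
      have : i ∈ range M := mem_range.2 (by
        have : i ≤ U.sup id := le_sup (f := id) hi
        omega)
      simp only [x, map_sum, map_smul, hes, smul_eq_mul, mul_ite, mul_one, mul_zero, sum_ite_eq',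
        if_pos this]
    have h2 : (∑ n ∈ range N, b n • y n) x =
        ∑ n ∈ range N, b n * ∑ k ∈ range (n + 1), r k * Ex n (fun h => a ((n, k), h)) := by
      rw [hy]
      refine sum_congr rfl fun n hn' => ?_
      congr 1
      refine sum_congr rfl fun k hk => ?_
      congr 1
      refine hT n _ _ fun h hh => ?_
      rw [hcoef _ (mem_biUnion.2 ⟨n, hn', mem_image.2 ⟨(k, h), mem_product.2 ⟨hk, hh⟩, rfl⟩⟩)]
      simp
    rw [← h2] at hl
    have h3 := (∑ n ∈ range N, b n • y n).le_opNorm x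
    have h4 := norm_nonneg (∑ n ∈ range N, b n • y n)
    have h5 := le_abs_self ((∑ n ∈ range N, b n • y n) x)
    rw [Real.norm_eq_abs] at h3
    nlinarith

end Pool.Agent.H428Z.CB
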