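import Mathlib

set_option autoImplicit false
open Finset

namespace Pool.Agent.H428Z.CB

abbrev Col := ℕ × ℕ
abbrev Node := Col × List Col

noncomputable def r (k : ℕ) : ℝ := (1 / 2) ^ (k + 1)

noncomputable def p (n k : ℕ) : ℝ :=
  if k ≤ n then r k ^ 2 else 1 - ∑ j ∈ range (n + 1), r j ^ 2

/-- Expectation over random histories of length `n`. -/
noncomputable def Ex {V : Type*} [AddCommGroup V] [Module ℝ V] : ℕ → (List Col → V) → V
  | 0, g => g []
  | n + 1, g => Ex n (fun h => ∑ k ∈ range (n + 2), p n k • g ((n, k) :: h))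

lemma Ex_succ {V : Type*} [AddCommGroup V] [Module ℝ V] (n : ℕ) (g : List Col → V) :
    Ex (n + 1) g = Ex n (fun h => ∑ k ∈ range (n + 2), p n k • g ((n, k) :: h)) := rfl

lemma r_pos (k : ℕ) : 0 < r k := by unfold r; positivity

lemma r_succ (k : ℕ) : r (k + 1) = r k / 2 := by unfold r; ring

lemma r_zero : r 0 = 1 / 2 := by unfold r; norm_num

lemma r_anti {a b : ℕ} (h : a ≤ b) : r b ≤ r a := by
  unfold r
  exact pow_le_pow_of_le_one (by norm_num) (by norm_num) (by omega)

lemma sum_r_sq (n : ℕ) : ∑ j ∈ range n, r j ^ 2 = (1 - (1 / 4) ^ n) / 3 := by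
  induction n with
  | zero => simp
  | succ n ih =>
    rw [sum_range_succ, ih]
    unfold r
    have : ((1 / 2 : ℝ) ^ (n + 1)) ^ 2 = (1 / 4) ^ n / 4 := by
      rw [← pow_mul, mul_comm, pow_mul]; norm_num; ring
    rw [this]; ring

lemma sum_r_sq_le (n : ℕ) : ∑ j ∈ range n, r j ^ 2 ≤ 1 / 3 := by
  rw [sum_r_sq]
  have : (0 : ℝ) ≤ (1 / 4) ^ n := by positivity
  linarith

lemma p_nonneg (n k : ℕ) : 0 ≤ p n k := by
  unfold p
  split_ifs
  · positivity
  · have := sum_r_sq_le (n + 1); linarith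

lemma sum_p (n : ℕ) : ∑ k ∈ range (n + 2), p n k = 1 := by
  rw [sum_range_succ]
  have h1 : ∑ k ∈ range (n + 1), p n k = ∑ k ∈ range (n + 1), r k ^ 2 := by
    refine sum_congr rfl fun k hk => ?_
    unfold p
    rw [if_pos (by simpa [Nat.lt_succ_iff] using hk)]
  rw [h1]
  unfold p
  rw [if_neg (by omega)]
  ring

/-- geometric tails -/
lemma sum_r_le (n : ℕ) (t : ℝ) (ht : 0 ≤ t) :
    ∑ k ∈ range n, (if r k ≤ t then r k else 0) ≤ 2 * t := by
  have key : ∀ n, ∑ k ∈ range n, (if r k ≤ t then r k else 0) + 2 * min t (r n) ≤ 2 * t := by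
    intro n
    induction n with
    | zero => simp
    | succ n ih =>
      rw [sum_range_succ]
      have h2 := r_succ n
      have h3 := r_pos n
      split_ifs with h
      · rw [min_eq_right h] at ih
        have : min t (r (n + 1)) ≤ r (n + 1) := min_le_right _ _
        linarith
      · have : min t (r (n + 1)) ≤ min t (r n) := min_le_min le_rfl (by linarith)
        linarith
  have h1 := key n
  have h2 : 0 ≤ min t (r n) := le_min ht (r_pos n).le
  linarith

lemma sum_r_sq_le' (n : ℕ) (t : ℝ) (ht : 0 ≤ t) :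
    ∑ k ∈ range n, (if r k ≤ t then r k ^ 2 else 0) ≤ 2 * t ^ 2 := by
  calc ∑ k ∈ range n, (if r k ≤ t then r k ^ 2 else 0)
      ≤ ∑ k ∈ range n, t * (if r k ≤ t then r k else 0) := by
        refine sum_le_sum fun k _ => ?_
        split_ifs with h
        · have := r_pos k; nlinarith
        · simp
    _ = t * ∑ k ∈ range n, (if r k ≤ t then r k else 0) := by rw [mul_sum]
    _ ≤ t * (2 * t) := mul_le_mul_of_nonneg_left (sum_r_le n t ht) ht
    _ = 2 * t ^ 2 := by ring

lemma Ex_apply {E : Type*} [NormedAddCommGroup E] [NormedSpace ℝ E] (x : E) :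
    ∀ (n : ℕ) (G : List Col → (E →L[ℝ] ℝ)), (Ex n G) x = Ex n (fun h => G h x)
  | 0, _ => rfl
  | n + 1, G => by
    unfold Ex
    rw [Ex_apply x n]
    congr 1
    ext h
    simp

lemma Ex_mono : ∀ (n : ℕ) {f g : List Col → ℝ}, (∀ h, f h ≤ g h) → Ex n f ≤ Ex n g
  | 0, _, _, H => H _
  | n + 1, _, _, H => by
    unfold Ex
    refine Ex_mono n fun h => sum_le_sum fun k _ => ?_
    exact mul_le_mul_of_nonneg_left (H _) (p_nonneg n k)

lemma Ex_const : ∀ (n : ℕ) (c : ℝ), Ex n (fun _ => c) = c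
  | 0, _ => rfl
  | n + 1, c => by
    rw [Ex_succ]
    simp only [← sum_smul, sum_p, one_smul]
    exact Ex_const n c

lemma Ex_add : ∀ (n : ℕ) (f g : List Col → ℝ),
    Ex n (fun h => f h + g h) = Ex n f + Ex n g
  | 0, _, _ => rfl
  | n + 1, f, g => by
    unfold Ex
    rw [← Ex_add n]
    congr 1
    ext h
    simp [mul_add, sum_add_distrib]

lemma Ex_mul : ∀ (n : ℕ) (c : ℝ) (f : List Col → ℝ),
    Ex n (fun h => c * f h) = c * Ex n f
  | 0, _, _ => rfl
  | n + 1, c, f => by
    unfold Ex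
    rw [← Ex_mul n]
    congr 1
    ext h
    rw [mul_sum]
    refine sum_congr rfl fun k _ => ?_
    simp only [smul_eq_mul]; ring

lemma Ex_sum {ι : Type*} (n : ℕ) (s : Finset ι) (f : ι → List Col → ℝ) :
    Ex n (fun h => ∑ i ∈ s, f i h) = ∑ i ∈ s, Ex n (f i) := by
  classical
  induction s using Finset.induction_on with
  | empty => simpa using Ex_const n 0
  | insert a s ha ih =>
    simp only [sum_insert ha]
    rw [Ex_add, ih]

lemma Ex_abs (n : ℕ) (f : List Col → ℝ) : |Ex n f| ≤ Ex n (fun h => |f h|) := by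
  rw [abs_le]
  constructor
  · have := Ex_mono n (f := fun h => (-1) * |f h|) (g := f) fun h => by
      have := neg_abs_le (f h); linarith
    rw [Ex_mul] at this; linarith
  · exact Ex_mono n fun h => le_abs_self _

lemma Ex_fin : ∀ n : ℕ, ∃ T : Finset (List Col), ∀ f g : List Col → ℝ,
    (∀ h ∈ T, f h = g h) → Ex n f = Ex n g
  | 0 => ⟨{[]}, fun f g H => H [] (by simp)⟩
  | n + 1 => by
    obtain ⟨T, hT⟩ := Ex_fin n
    refine ⟨(range (n + 2) ×ˢ T).image (fun z => (n, z.1) :: z.2), fun f g H => ?_⟩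
    unfold Ex
    refine hT _ _ fun h hh => sum_congr rfl fun k hk => ?_
    rw [H _ (mem_image.2 ⟨(k, h), mem_product.2 ⟨hk, hh⟩, rfl⟩)]

/-- Sum of `f` over the nodes visited by a history. -/
noncomputable def S (f : Node → ℝ) : List Col → ℝ
  | [] => 0
  | c :: h => f (c, h) + S f h

/-- The nodes visited by a history. -/
def vis : List Col → Finset Node
  | [] => ∅
  | c :: h => insert (c, h) (vis h)

lemma vis_spec : ∀ (h : List Col) (u : Node), u ∈ vis h → u.2.length < h.length ∧ u.1 ∈ h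
  | [], u, hu => by simp [vis] at hu
  | c :: h, u, hu => by
    simp only [vis, mem_insert] at hu
    rcases hu with rfl | hu
    · simp
    · have := vis_spec h u hu
      exact ⟨by simp; omega, List.mem_cons_of_mem _ this.2⟩

lemma S_eq (f : Node → ℝ) : ∀ h : List Col, S f h = ∑ u ∈ vis h, f u
  | [] => by simp [S, vis]
  | c :: h => by
    have : (c, h) ∉ vis h := fun hh => by simpa using (vis_spec h _ hh).1
    rw [S, vis, sum_insert this, S_eq f h]

lemma vis_clique : ∀ (h : List Col) (u v : Node), u ∈ vis h → v ∈ vis h → u ≠ v →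
    u.1 ∈ v.2 ∨ v.1 ∈ u.2
  | [], u, _, hu, _, _ => by simp [vis] at hu
  | c :: h, u, v, hu, hv, huv => by
    simp only [vis, mem_insert] at hu hv
    rcases hu with rfl | hu <;> rcases hv with rfl | hv
    · exact absurd rfl huv
    · exact Or.inr (vis_spec h v hv).2
    · exact Or.inl (vis_spec h u hu).2
    · exact vis_clique h u v hu hv huv

lemma Ex_S (f : Node → ℝ) : ∀ N : ℕ, Ex N (S f) =
    ∑ n ∈ range N, ∑ k ∈ range (n + 2), p n k * Ex n (fun h => f ((n, k), h))
  | 0 => by simp [Ex, S]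
  | N + 1 => by
    rw [sum_range_succ, ← Ex_S f N, Ex_succ]
    have : (fun h => ∑ k ∈ range (N + 2), p N k • S f ((N, k) :: h)) =
        fun h => S f h + ∑ k ∈ range (N + 2), p N k * f ((N, k), h) := by
      ext h
      simp only [S, smul_eq_mul, mul_add, sum_add_distrib, ← sum_mul, sum_p]
      ring
    rw [this, Ex_add, Ex_sum]
    congr 1
    exact sum_congr rfl fun k _ => Ex_mul _ _ _

end Pool.Agent.H428Z.CB
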