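import Pool.Agent.H428Z.CB.Core

set_option autoImplicit false
open Finset
open scoped ENNReal

namespace Pool.Agent.H428Z.CB

lemma signs (b : ℕ → ℕ → ℝ) (N n : ℕ) : ∃ ε : ℕ → ℝ, (∀ i, |ε i| = 1) ∧
    ∑ m ∈ range N, (∑ i ∈ range n, ε i * b i m) ^ 2 ≤ ∑ i ∈ range n, ∑ m ∈ range N, b i m ^ 2 := by
  induction n with
  | zero => exact ⟨fun _ => 1, by simp, by simp⟩
  | succ n ih =>
    obtain ⟨ε, hε, h⟩ := ih
    set w : ℕ → ℝ := fun m => ∑ i ∈ range n, ε i * b i m with hw
    obtain ⟨s, hs1, hs3⟩ : ∃ s : ℝ, |s| = 1 ∧ s * ∑ m ∈ range N, w m * b n m ≤ 0 := by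
      rcases le_total 0 (∑ m ∈ range N, w m * b n m) with h0 | h0
      · exact ⟨-1, by simp, by simpa using h0⟩
      · exact ⟨1, by simp, by simpa using h0⟩
    have hs2 : s ^ 2 = 1 := by rw [← sq_abs, hs1]; norm_num
    refine ⟨fun i => if i < n then ε i else s, fun i => ?_, ?_⟩
    · simp only; split_ifs
      · exact hε i
      · exact hs1
    · have h1 : ∀ m, ∑ i ∈ range (n + 1), (if i < n then ε i else s) * b i m = w m + s * b n m := by
        intro m
        rw [sum_range_succ, if_neg (lt_irrefl n)]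
        congr 1
        exact sum_congr rfl fun i hi => by rw [if_pos (mem_range.1 hi)]
      simp only [h1]
      rw [sum_range_succ]
      have h2 : ∑ m ∈ range N, (w m + s * b n m) ^ 2 = ∑ m ∈ range N, w m ^ 2 +
          2 * (s * ∑ m ∈ range N, w m * b n m) + ∑ m ∈ range N, b n m ^ 2 := by
        rw [mul_sum, mul_sum, ← sum_add_distrib, ← sum_add_distrib]
        refine sum_congr rfl fun m _ => ?_
        have : (w m + s * b n m) ^ 2 = w m ^ 2 + 2 * (s * (w m * b n m)) + s ^ 2 * b n m ^ 2 := by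
          ring
        rw [this, hs2, one_mul]
      rw [h2]
      linarith

section
variable {X : Type*} [NormedAddCommGroup X] [NormedSpace ℝ X]

lemma scale (y : ℕ → X) (N : ℕ) (b : ℕ → ℝ) (s : ℝ) (hs : 0 < s)
    (h : 0 < ∑ n ∈ range N, b n ^ 2) : ∃ t : ℝ, 0 < t ∧ ∑ n ∈ range N, (t * b n) ^ 2 = s ∧
      t ^ 2 * ∑ n ∈ range N, b n ^ 2 = s ∧
      ‖∑ n ∈ range N, (t * b n) • y n‖ = t * ‖∑ n ∈ range N, b n • y n‖ := by
  have h1 : 0 < s / ∑ n ∈ range N, b n ^ 2 := div_pos hs h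
  have h2 : √(s / ∑ n ∈ range N, b n ^ 2) ^ 2 * ∑ n ∈ range N, b n ^ 2 = s := by
    rw [Real.sq_sqrt h1.le]; field_simp
  refine ⟨√(s / ∑ n ∈ range N, b n ^ 2), Real.sqrt_pos.2 h1, ?_, h2, ?_⟩
  · simp only [mul_pow, ← mul_sum]; exact h2
  · simp only [mul_smul, ← smul_sum, norm_smul, Real.norm_eq_abs,
      abs_of_nonneg (Real.sqrt_nonneg _)]

theorem hilbertian (y : ℕ → X)
    (hU : ∀ (N : ℕ) (b : ℕ → ℝ), ∑ n ∈ range N, b n ^ 2 ≤ 1 → ‖∑ n ∈ range N, b n • y n‖ ≤ 10)
    (hL : ∀ (N : ℕ) (b : ℕ → ℝ), ∑ n ∈ range N, b n ^ 2 = 2 / 5 →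
      1 / 150 ≤ ‖∑ n ∈ range N, b n • y n‖) :
    ∃ Y : Submodule ℝ X, IsClosed (Y : Set X) ∧ ¬ FiniteDimensional ℝ Y ∧
      ¬ ∃ (f : ℕ → X) (c : ℝ), 0 < c ∧ (∀ i, f i ∈ Y ∧ ‖f i‖ ≤ 1) ∧
          ∀ (n : ℕ) (a : ℕ → ℝ), c * ∑ i ∈ range n, |a i| ≤ ‖∑ i ∈ range n, a i • f i‖ := by
  have hU' : ∀ (N : ℕ) (b : ℕ → ℝ),
      ‖∑ n ∈ range N, b n • y n‖ ^ 2 ≤ 100 * ∑ n ∈ range N, b n ^ 2 := by
    intro N b
    rcases (sum_nonneg (s := range N) fun n _ => sq_nonneg (b n)).eq_or_lt with h | h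
    · have h0 := (sum_eq_zero_iff_of_nonneg fun n _ => sq_nonneg (b n)).1 h.symm
      rw [← h, sum_eq_zero fun n hn => by rw [pow_eq_zero_iff (by norm_num) |>.1 (h0 n hn), zero_smul]]
      simp
    · obtain ⟨t, ht, h1, h2, h3⟩ := scale y N b 1 one_pos h
      have h4 := hU N _ h1.le
      rw [h3] at h4
      have h5 := norm_nonneg (∑ n ∈ range N, b n • y n)
      set R := ‖∑ n ∈ range N, b n • y n‖
      set Q := ∑ n ∈ range N, b n ^ 2
      have h6 : (t * R) ^ 2 ≤ 10 ^ 2 := pow_le_pow_left₀ (by positivity) h4 2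
      have h7 : R ^ 2 = (t * R) ^ 2 * Q := by rw [mul_pow, mul_right_comm, h2, one_mul]
      rw [h7]; nlinarith
  have hL' : ∀ (N : ℕ) (b : ℕ → ℝ),
      ∑ n ∈ range N, b n ^ 2 ≤ 9000 * ‖∑ n ∈ range N, b n • y n‖ ^ 2 := by
    intro N b
    rcases (sum_nonneg (s := range N) fun n _ => sq_nonneg (b n)).eq_or_lt with h | h
    · rw [← h]; positivity
    · obtain ⟨t, ht, h1, h2, h3⟩ := scale y N b (2 / 5) (by norm_num) h
      have h4 := hL N _ h1
      rw [h3] at h4
      set R := ‖∑ n ∈ range N, b n • y n‖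
      set Q := ∑ n ∈ range N, b n ^ 2
      have h6 : (1 / 150) ^ 2 ≤ (t * R) ^ 2 := pow_le_pow_left₀ (by positivity) h4 2
      have h7 : (2 / 5) * R ^ 2 = (t * R) ^ 2 * Q := by rw [mul_pow, mul_right_comm, h2]
      nlinarith
  have hspan : ∀ g ∈ Submodule.span ℝ (Set.range y), ∃ (N₀ : ℕ) (b : ℕ → ℝ),
      ∀ N, N₀ ≤ N → g = ∑ n ∈ range N, b n • y n := by
    intro g hg
    obtain ⟨c, rfl⟩ := Finsupp.mem_span_range_iff_exists_finsupp.1 hg
    refine ⟨c.support.sup id + 1, c, fun N hN => ?_⟩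
    refine Finsupp.sum_of_support_subset c (fun i hi => mem_range.2 ?_) _ (fun i _ => by simp)
    have : i ≤ c.support.sup id := le_sup (f := id) hi
    omega
  refine ⟨(Submodule.span ℝ (Set.range y)).topologicalClosure,
    Submodule.isClosed_topologicalClosure _, fun hfd => ?_, ?_⟩
  · have hli : LinearIndependent ℝ y := by
      rw [linearIndependent_iff']
      intro s g hg i hi
      have h1 := hL' (s.sup id + 1) (fun n => if n ∈ s then g n else 0)
      have hs : s ⊆ range (s.sup id + 1) := fun j hj => mem_range.2 (by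
        have : j ≤ s.sup id := le_sup (f := id) hj
        omega)
      have h2 : ∑ n ∈ range (s.sup id + 1), (if n ∈ s then g n else 0) • y n = 0 := by
        rw [← hg, ← sum_subset hs fun j _ hj => by rw [if_neg hj, zero_smul]]
        exact sum_congr rfl fun j hj => by rw [if_pos hj]
      rw [h2] at h1
      have h3 := single_le_sum (f := fun n => (if n ∈ s then g n else 0) ^ 2)
        (fun j _ => sq_nonneg _) (hs hi)
      simp only [if_pos hi, norm_zero] at h3 h1
      have : g i ^ 2 ≤ 0 := by linarith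
      exact pow_eq_zero_iff (two_ne_zero) |>.1 (le_antisymm this (sq_nonneg _))
    let y' : ℕ → (Submodule.span ℝ (Set.range y)).topologicalClosure := fun n =>
      ⟨y n, Submodule.le_topologicalClosure _ (Submodule.subset_span ⟨n, rfl⟩)⟩
    have hli' : LinearIndependent ℝ y' :=
      LinearIndependent.of_comp (Submodule.subtype _) hli
    exact Module.Finite.not_linearIndependent_of_infinite y' hli'
  · rintro ⟨f, c, hc, hf, hl⟩
    have happ : ∀ i, ∃ g ∈ Submodule.span ℝ (Set.range y), ‖f i - g‖ < c / 2 := by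
      intro i
      have h1 : f i ∈ closure (Submodule.span ℝ (Set.range y) : Set X) := (hf i).1
      obtain ⟨g, hg, h2⟩ := Metric.mem_closure_iff.1 h1 (c / 2) (by positivity)
      exact ⟨g, hg, by rwa [← dist_eq_norm]⟩
    choose g hg hfg using happ
    choose N₀ b hb using fun i => hspan (g i) (hg i)
    have hgn : ∀ i, ‖g i‖ ≤ 1 + c / 2 := fun i => by
      have h1 : g i = f i - (f i - g i) := by abel
      have h2 := norm_sub_le (f i) (f i - g i)
      rw [← h1] at h2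
      linarith [(hf i).2, hfg i]
    obtain ⟨n, hn⟩ := exists_nat_gt (4 * (100 * (9000 * (1 + c / 2) ^ 2)) / c ^ 2)
    have hn0 : (0 : ℝ) < n := lt_of_le_of_lt (by positivity) hn
    set N := (range n).sup N₀ with hN
    have hbN : ∀ i ∈ range n, g i = ∑ m ∈ range N, b i m • y m := fun i hi =>
      hb i N (le_sup hi)
    obtain ⟨ε, hε, hs⟩ := signs b N n
    have h1 : ∑ i ∈ range n, ε i • g i = ∑ m ∈ range N, (∑ i ∈ range n, ε i * b i m) • y m := by
      simp only [sum_smul]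
      rw [sum_comm]
      refine sum_congr rfl fun i hi => ?_
      rw [hbN i hi, smul_sum]
      exact sum_congr rfl fun m _ => by rw [mul_smul]
    have h2 : ∑ i ∈ range n, ∑ m ∈ range N, b i m ^ 2 ≤ n * (9000 * (1 + c / 2) ^ 2) := by
      calc _ ≤ ∑ i ∈ range n, 9000 * (1 + c / 2) ^ 2 := by
            refine sum_le_sum fun i hi => (hL' N (b i)).trans ?_
            rw [← hbN i hi]
            have := pow_le_pow_left₀ (norm_nonneg _) (hgn i) 2
            linarith
        _ = _ := by simp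
    have h3 := hU' N (fun m => ∑ i ∈ range n, ε i * b i m)
    rw [← h1] at h3
    have h4 := hl n ε
    simp only [hε, sum_const, card_range, nsmul_eq_mul, mul_one] at h4
    have h5 : ‖∑ i ∈ range n, ε i • f i‖ ≤ ‖∑ i ∈ range n, ε i • g i‖ + n * (c / 2) := by
      have : ∑ i ∈ range n, ε i • f i =
          ∑ i ∈ range n, ε i • g i + ∑ i ∈ range n, ε i • (f i - g i) := by
        rw [← sum_add_distrib]
        exact sum_congr rfl fun i _ => by rw [← smul_add]; congr 1; abel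
      rw [this]
      refine (norm_add_le _ _).trans (add_le_add le_rfl ((norm_sum_le _ _).trans ?_))
      calc _ ≤ ∑ i ∈ range n, c / 2 := sum_le_sum fun i _ => by
            rw [norm_smul, Real.norm_eq_abs, hε, one_mul]; exact (hfg i).le
        _ = _ := by simp
    have h6 : n * (c / 2) ≤ ‖∑ i ∈ range n, ε i • g i‖ := by linarith
    have h7 := pow_le_pow_left₀ (by positivity) h6 2
    rw [div_lt_iff₀ (by positivity)] at hn
    have h8 : (n * (c / 2)) ^ 2 ≤ 100 * (n * (9000 * (1 + c / 2) ^ 2)) := by linarith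
    nlinarith

end

theorem exists_space (𝓕 : Set (Finset ℕ)) (h1 : ∀ i : ℕ, ({i} : Finset ℕ) ∈ 𝓕) :
    ∃ (E : Type) (_ : NormedAddCommGroup E) (_ : NormedSpace ℝ E) (_ : CompleteSpace E)
      (e : ℕ → E) (es : ℕ → E →L[ℝ] ℝ), Dense (Submodule.span ℝ (Set.range e) : Set E) ∧
      (∀ (n : ℕ) (a : ℕ → ℝ), ‖∑ i ∈ range n, a i • e i‖ =
          sSup ((fun F : Finset ℕ => ∑ i ∈ F ∩ range n, |a i|) '' 𝓕)) ∧
      (∀ i j, es i (e j) = if j = i then 1 else 0) ∧
      ∀ x : E, ∀ F ∈ 𝓕, ∑ i ∈ F, |es i x| ≤ ‖x‖ := by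
  classical
  let I := 𝓕 × Finset ℕ
  let B := lp (fun _ : I => ℝ) ∞
  let sg : Finset ℕ → ℕ → ℝ := fun G i => if i ∈ G then 1 else -1
  have hsg : ∀ G i, |sg G i| = 1 := fun G i => by simp only [sg]; split_ifs <;> simp
  let e0 : ℕ → B := fun i => ⟨fun z => if i ∈ z.1.1 then sg z.2 i else 0,
    memℓp_infty ⟨1, by
      rintro _ ⟨z, rfl⟩
      simp only [Real.norm_eq_abs]
      split_ifs
      · exact (hsg _ _).le
      · simp⟩⟩
  let E := (Submodule.span ℝ (Set.range e0)).topologicalClosure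
  let e : ℕ → E := fun i =>
    ⟨e0 i, Submodule.le_topologicalClosure _ (Submodule.subset_span ⟨i, rfl⟩)⟩
  let ev : I → E →L[ℝ] ℝ := fun z => (lp.evalCLM ℝ (fun _ : I => ℝ) ∞ z).comp E.subtypeL
  have hev : ∀ z (x : E), ev z x = (x : B) z := fun z x => rfl
  have hev_le : ∀ z (x : E), |ev z x| ≤ ‖x‖ := fun z x =>
    lp.norm_apply_le_norm (by simp) (x : B) z
  have heve : ∀ z i, ev z (e i) = if i ∈ z.1.1 then sg z.2 i else 0 := fun z i => rfl
  let es : ℕ → E →L[ℝ] ℝ := fun i => ev (⟨{i}, h1 i⟩, {i})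
  have hes : ∀ i j, es i (e j) = if j = i then 1 else 0 := fun i j => by
    simp only [es, heve, sg, mem_singleton]
    split_ifs <;> rfl
  have hdense : Dense (Submodule.span ℝ (Set.range e) : Set E) := by
    rw [Subtype.dense_iff]
    have : ((↑) : E → B) '' (Submodule.span ℝ (Set.range e) : Set E) =
        (Submodule.span ℝ (Set.range e0) : Set B) := by
      have h2 := Submodule.map_span E.subtype (Set.range e)
      rw [← Set.range_comp] at h2
      have h3 : (E.subtype ∘ e) = e0 := rfl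
      rw [h3] at h2
      rw [← h2]; rfl
    intro x hx
    have h4 : x ∈ closure (Submodule.span ℝ (Set.range e0) : Set B) := hx
    rw [← this] at h4
    exact h4
  have hrep : ∀ z : I, ev z = ∑ i ∈ z.1.1, sg z.2 i • es i := by
    intro z
    refine ContinuousLinearMap.ext_on hdense ?_
    rintro _ ⟨j, rfl⟩
    simp only [_root_.sum_apply, _root_.smul_apply, hes, heve, smul_eq_mul, mul_ite, mul_one,
      mul_zero, sum_ite_eq]
  have hlast : ∀ x : E, ∀ F ∈ 𝓕, ∑ i ∈ F, |es i x| ≤ ‖x‖ := by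
    intro x F hF
    have h2 := hev_le (⟨F, hF⟩, F.filter fun i => 0 ≤ es i x) x
    rw [hrep] at h2
    refine le_trans (le_of_eq ?_) ((le_abs_self _).trans h2)
    simp only [_root_.sum_apply, _root_.smul_apply, smul_eq_mul]
    refine sum_congr rfl fun i hi => ?_
    simp only [sg, mem_filter, hi, true_and]
    split_ifs with h
    · rw [abs_of_nonneg h, one_mul]
    · rw [abs_of_neg (by linarith)]; ring
  refine ⟨E, inferInstance, inferInstance, inferInstance, e, es, hdense, fun n a => ?_, hes, hlast⟩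
  have hcoef : ∀ F : Finset ℕ, ∑ i ∈ F, |es i (∑ j ∈ range n, a j • e j)| =
      ∑ i ∈ F ∩ range n, |a i| := by
    intro F
    rw [← sum_ite_mem]
    refine sum_congr rfl fun i _ => ?_
    simp only [map_sum, map_smul, hes, smul_eq_mul, mul_ite, mul_one, mul_zero, sum_ite_eq']
    split_ifs <;> simp
  have hbdd : ∀ t ∈ ((fun F : Finset ℕ => ∑ i ∈ F ∩ range n, |a i|) '' 𝓕),
      t ≤ ‖∑ i ∈ range n, a i • e i‖ := by
    rintro _ ⟨F, hF, rfl⟩
    simp only [← hcoef]
    exact hlast _ F hF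
  refine le_antisymm ?_ (csSup_le ⟨_, ⟨_, h1 0, rfl⟩⟩ hbdd)
  have hle : ∀ F ∈ 𝓕, ∑ i ∈ F ∩ range n, |a i| ≤
      sSup ((fun F : Finset ℕ => ∑ i ∈ F ∩ range n, |a i|) '' 𝓕) := fun F hF =>
    le_csSup ⟨_, hbdd⟩ ⟨F, hF, rfl⟩
  refine lp.norm_le_of_forall_le (f := ((∑ i ∈ range n, a i • e i : E) : B))
    ((sum_nonneg fun i _ => abs_nonneg _).trans (hle _ (h1 0))) fun z => ?_
  refine le_trans ?_ (hle z.1.1 z.1.2)
  rw [← hev, hrep, ← hcoef, Real.norm_eq_abs]
  simp only [_root_.sum_apply, _root_.smul_apply, smul_eq_mul]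
  refine (abs_sum_le_sum_abs _ _).trans (le_of_eq (sum_congr rfl fun i _ => ?_))
  rw [abs_mul, hsg, one_mul]

end Pool.Agent.H428Z.CB
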